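import Pool.Agent.H315_Pol.Poset

/-!
# A self-dual equivelar polyhedron without a polarity

The polyhedron has type `{6, 6}`, 8 vertices, 24 edges, 8 faces of rank 2 and 96 flags. It is a
4-fold cyclic cover of a quadrangulated closed surface whose underlying graph is not bipartite: the
vertices of the cover on even levels are the vertices of the polyhedron, those on odd levels are its
2-faces and the quadrangles are its edges. The generator of the deck group is a duality; its square
is the only non-trivial automorphism, so the two dualities have order 4.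
-/

set_option autoImplicit false

namespace Pool.Agent.Results.MP_1940b6_co.EquivelarNoPolarity

/-- Two flags differ in exactly one face. -/
def Adjacent {P : Type} [PartialOrder P] (A B : Flag P) : Prop :=
  ((A : Set P) \ (B : Set P)).ncard = 1 ∧ ((B : Set P) \ (A : Set P)).ncard = 1

/-- `P` with the rank function `rk` is an abstract polyhedron (abstract polytope of rank 3).
A `Flag P` is a maximal chain of `P`. -/
structure IsPolyhedron {P : Type} [PartialOrder P] (rk : P → ℤ) : Prop where
  /-- the rank function is strictly monotone -/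
  strictMono : StrictMono rk
  /-- the rank function is onto `{-1, 0, 1, 2, 3}` -/
  range_rk : Set.range rk = {-1, 0, 1, 2, 3}
  /-- there is a unique least face -/
  least : ∃! F : P, IsLeast Set.univ F
  /-- there is a unique greatest face -/
  greatest : ∃! F : P, IsGreatest Set.univ F
  /-- every maximal chain has exactly 5 elements -/
  flag_card : ∀ Φ : Flag P, (Φ : Set P).ncard = 5
  /-- the diamond condition -/
  diamond : ∀ (F G : P) (j : ℤ), F ≤ G → rk F = j - 1 → rk G = j + 1 →
    {H : P | rk H = j ∧ F ≤ H ∧ H ≤ G}.ncard = 2
  /-- strong flag-connectivity -/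
  connected : ∀ Φ Ψ : Flag P, Relation.ReflTransGen
    (fun A B : Flag P => Adjacent A B ∧ (Φ : Set P) ∩ (Ψ : Set P) ⊆ (A : Set P) ∧
      (Φ : Set P) ∩ (Ψ : Set P) ⊆ (B : Set P)) Φ Ψ

/-- The section `{H : F ≤ H ≤ G}` is a `p`-gon: the elements strictly between `F` and `G` are
`p` distinct elements `a 0, ..., a (p-1)` of rank `rk F + 1` (the vertices of the `p`-gon) and `p`
distinct elements `b 0, ..., b (p-1)` of rank `rk F + 2` (its edges), and the vertices of the edge
`b j` are `a j` and `a (j+1)`, with indices modulo `p`. -/
def IsGon {P : Type} [PartialOrder P] (rk : P → ℤ) (p : ℕ) (F G : P) : Prop :=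
  ∃ a b : Fin p → P, Function.Injective a ∧ Function.Injective b ∧
    (∀ i, rk (a i) = rk F + 1) ∧ (∀ i, rk (b i) = rk F + 2) ∧
    (∀ H : P, (F < H ∧ H < G) ↔ ((∃ i, a i = H) ∨ ∃ i, b i = H)) ∧
    ∀ i j : Fin p, a i ≤ b j ↔ (i = j ∨ (i : ℕ) = ((j : ℕ) + 1) % p)

/-- `P` is equivelar of type `{p, q}`: for every 2-face `F` the section from the least face to `F`
is a `p`-gon, and for every vertex `v` the section from `v` to the greatest face is a `q`-gon. -/
def IsEquivelar {P : Type} [PartialOrder P] (rk : P → ℤ) (p q : ℕ) : Prop :=
  (∀ F₀ F : P, IsLeast Set.univ F₀ → rk F = 2 → IsGon rk p F₀ F) ∧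
  (∀ v F₃ : P, IsGreatest Set.univ F₃ → rk v = 0 → IsGon rk q v F₃)

/-- A duality: an order-reversing bijection of `P` onto itself, with order-reversing inverse. -/
def IsDuality {P : Type} [PartialOrder P] (δ : P ≃ P) : Prop :=
  ∀ F G : P, F ≤ G ↔ δ G ≤ δ F

open Pool.Agent.H315_Pol Pool.Agent.H315_Pol.Elt

theorem isLeast_iff (a : Elt) : IsLeast Set.univ a ↔ a = bot := by
  constructor
  · intro h
    exact le_antisymm (h.2 (Set.mem_univ _)) (bot_le' a)
  · rintro rfl
    exact ⟨Set.mem_univ _, fun b _ => bot_le' b⟩

theorem isGreatest_iff (a : Elt) : IsGreatest Set.univ a ↔ a = top := by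
  constructor
  · intro h
    exact le_antisymm (le_top' a) (h.2 (Set.mem_univ _))
  · rintro rfl
    exact ⟨Set.mem_univ _, fun b _ => le_top' b⟩

theorem diamond_aux (F' G : Elt) (j : ℤ) (h : F' ≤ G) (h1 : Pool.Agent.H315_Pol.rk F' = j - 1)
    (h2 : Pool.Agent.H315_Pol.rk G = j + 1) :
    {H : Elt | Pool.Agent.H315_Pol.rk H = j ∧ F' ≤ H ∧ H ≤ G}.ncard = 2 := by
  cases F' with
  | bot =>
    cases G with
    | edge e =>
      obtain ⟨x, rfl⟩ := surj_ok.2.1 e
      have : {H : Elt | Pool.Agent.H315_Pol.rk H = j ∧ bot ≤ H ∧ H ≤ edge (E x)} =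
          {vert (V x), vert (V (r0 x))} := by
        have hj : j = 0 := by simp [Pool.Agent.H315_Pol.rk] at h2; omega
        subst hj
        ext H
        simp only [Set.mem_ofPred_eq, Set.mem_insert_iff, Set.mem_singleton_iff]
        cases H with
        | vert v =>
          have := dia_v x v
          simp only [Pool.Agent.H315_Pol.rk, bot_le', true_and, vert.injEq]
          exact this
        | _ => simp [Pool.Agent.H315_Pol.rk]
      rw [this, Set.ncard_pair]
      intro h
      exact (r_ok x).1.2.2 (Elt.vert.inj h).symm
    | _ => simp [Pool.Agent.H315_Pol.rk] at h1 h2; omega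
  | vert v =>
    cases G with
    | face f =>
      obtain ⟨x, rfl, rfl⟩ := (ivf_iff v f).1 h
      have : {H : Elt | Pool.Agent.H315_Pol.rk H = j ∧ vert (V x) ≤ H ∧ H ≤ face (F x)} =
          {edge (E x), edge (E (r1 x))} := by
        have hj : j = 1 := by simp [Pool.Agent.H315_Pol.rk] at h2; omega
        subst hj
        ext H
        simp only [Set.mem_ofPred_eq, Set.mem_insert_iff, Set.mem_singleton_iff]
        cases H with
        | edge v =>
          have := dia_e x v
          simp only [Pool.Agent.H315_Pol.rk, true_and, edge.injEq]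
          exact this
        | _ => simp [Pool.Agent.H315_Pol.rk]
      rw [this, Set.ncard_pair]
      intro h
      exact (r_ok x).2.1.2.2 (Elt.edge.inj h).symm
    | _ => simp [Pool.Agent.H315_Pol.rk] at h1 h2; omega
  | edge e =>
    cases G with
    | top =>
      obtain ⟨x, rfl⟩ := surj_ok.2.1 e
      have : {H : Elt | Pool.Agent.H315_Pol.rk H = j ∧ edge (E x) ≤ H ∧ H ≤ top} =
          {face (F x), face (F (r2 x))} := by
        have hj : j = 2 := by simp [Pool.Agent.H315_Pol.rk] at h2; omega
        subst hj
        ext H
        simp only [Set.mem_ofPred_eq, Set.mem_insert_iff, Set.mem_singleton_iff]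
        cases H with
        | face v =>
          have := dia_f x v
          simp only [Pool.Agent.H315_Pol.rk, le_top', and_true, true_and, face.injEq]
          exact this
        | _ => simp [Pool.Agent.H315_Pol.rk]
      rw [this, Set.ncard_pair]
      intro h
      exact (r_ok x).2.2.2.2 (Elt.face.inj h).symm
    | _ => simp [Pool.Agent.H315_Pol.rk] at h1 h2; omega
  | face f => cases G <;> simp [Pool.Agent.H315_Pol.rk] at h1 h2 <;> omega
  | top => cases G <;> simp [Pool.Agent.H315_Pol.rk] at h1 h2 <;> omega

theorem isPolyhedron : IsPolyhedron Pool.Agent.H315_Pol.rk where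
  strictMono := rk_mono
  range_rk := by
    ext z
    simp only [Set.mem_range, Set.mem_insert_iff, Set.mem_singleton_iff]
    constructor
    · rintro ⟨a, rfl⟩
      cases a <;> simp [Pool.Agent.H315_Pol.rk]
    · rintro (rfl | rfl | rfl | rfl | rfl)
      · exact ⟨bot, rfl⟩
      · exact ⟨vert 0, rfl⟩
      · exact ⟨edge 0, rfl⟩
      · exact ⟨face 0, rfl⟩
      · exact ⟨top, rfl⟩
  least := ⟨bot, (isLeast_iff _).2 rfl, fun y hy => (isLeast_iff _).1 hy⟩
  greatest := ⟨top, (isGreatest_iff _).2 rfl, fun y hy => (isGreatest_iff _).1 hy⟩
  flag_card := by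
    intro Φ
    obtain ⟨x, rfl⟩ := flag_mk Φ
    exact car_ncard x
  diamond := fun F' G j h h1 h2 => diamond_aux F' G j h h1 h2
  connected := by
    intro Φ Ψ
    obtain ⟨x, rfl⟩ := flag_mk Φ
    obtain ⟨y, rfl⟩ := flag_mk Ψ
    exact Relation.ReflTransGen.lift mk (fun a b h => h) x y (conn x y)

theorem isEquivelar : IsEquivelar Pool.Agent.H315_Pol.rk 6 6 := by
  constructor
  · intro F₀ F' h0 hF
    rw [isLeast_iff] at h0
    subst h0
    cases F' with
    | face f =>
      obtain ⟨h1, h2, h3, h4, h5⟩ := face_poly f
      refine ⟨fun i => vert (fv f i), fun i => edge (fe f i), ?_, ?_, ?_, ?_, ?_, ?_⟩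
      · intro i j hij
        exact h1 i j (Elt.vert.inj hij)
      · intro i j hij
        exact h2 i j (Elt.edge.inj hij)
      · intro i; simp [Pool.Agent.H315_Pol.rk]
      · intro i; simp [Pool.Agent.H315_Pol.rk]
      · intro H
        cases H with
        | bot => simp
        | top =>
          simp only [reduceCtorEq, exists_false, or_self, iff_false, not_and]
          intro _ h
          exact absurd (rk_mono h) (by simp [Pool.Agent.H315_Pol.rk])
        | vert v =>
          simp only [vert.injEq, reduceCtorEq, exists_false, or_false]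
          rw [← h3 v]
          constructor
          · intro h; exact h.2.le
          · intro h
            exact ⟨lt_of_rk (bot_le' _) (by simp [Pool.Agent.H315_Pol.rk]),
              lt_of_rk h (by simp [Pool.Agent.H315_Pol.rk])⟩
        | edge v =>
          simp only [edge.injEq, reduceCtorEq, exists_false, false_or]
          rw [← h4 v]
          constructor
          · intro h; exact h.2.le
          · intro h
            exact ⟨lt_of_rk (bot_le' _) (by simp [Pool.Agent.H315_Pol.rk]),
              lt_of_rk h (by simp [Pool.Agent.H315_Pol.rk])⟩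
        | face g =>
          simp only [reduceCtorEq, exists_false, or_self, iff_false, not_and]
          intro _ h
          exact absurd (rk_mono h) (by simp [Pool.Agent.H315_Pol.rk])
      · intro i j
        exact h5 i j
    | _ => simp [Pool.Agent.H315_Pol.rk] at hF
  · intro v F₃ h0 hF
    rw [isGreatest_iff] at h0
    subst h0
    cases v with
    | vert v =>
      obtain ⟨h1, h2, h3, h4, h5⟩ := vert_poly v
      refine ⟨fun i => edge (we v i), fun i => face (wf v i), ?_, ?_, ?_, ?_, ?_, ?_⟩
      · intro i j hij
        exact h1 i j (Elt.edge.inj hij)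
      · intro i j hij
        exact h2 i j (Elt.face.inj hij)
      · intro i; simp [Pool.Agent.H315_Pol.rk]
      · intro i; simp [Pool.Agent.H315_Pol.rk]
      · intro H
        cases H with
        | top => simp
        | bot =>
          simp only [reduceCtorEq, exists_false, or_self, iff_false, not_and]
          intro h
          exact absurd (rk_mono h) (by simp [Pool.Agent.H315_Pol.rk])
        | edge e =>
          simp only [edge.injEq, reduceCtorEq, exists_false, or_false]
          rw [← h3 e]
          constructor
          · intro h; exact h.1.le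
          · intro h
            exact ⟨lt_of_rk h (by simp [Pool.Agent.H315_Pol.rk]),
              lt_of_rk (le_top' _) (by simp [Pool.Agent.H315_Pol.rk])⟩
        | face e =>
          simp only [face.injEq, reduceCtorEq, exists_false, false_or]
          rw [← h4 e]
          constructor
          · intro h; exact h.1.le
          · intro h
            exact ⟨lt_of_rk h (by simp [Pool.Agent.H315_Pol.rk]),
              lt_of_rk (le_top' _) (by simp [Pool.Agent.H315_Pol.rk])⟩
        | vert g =>
          simp only [reduceCtorEq, exists_false, or_self, iff_false, not_and]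
          intro h
          exact absurd (rk_mono h) (by simp [Pool.Agent.H315_Pol.rk])
      · intro i j
        exact h5 i j
    | _ => simp [Pool.Agent.H315_Pol.rk] at hF

theorem finite_elt : Finite Elt := by
  let g : Elt → Fin 5 × Fin 24
    | bot => (0, 0)
    | vert v => (1, v.castLE (by decide))
    | edge e => (2, e)
    | face f => (3, f.castLE (by decide))
    | top => (4, 0)
  apply Finite.of_injective g
  intro a b h
  cases a <;> cases b <;> simp_all [g]

/-- There is a finite abstract polyhedron that is equivelar (of type `{6, 6}`) and self-dual, and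
has no polarity: none of its dualities `δ` satisfies `δ (δ F) = F` for all faces `F`. -/
theorem result : ∃ (P : Type) (_ : PartialOrder P) (rk : P → ℤ), Finite P ∧
    IsPolyhedron rk ∧ IsEquivelar rk 6 6 ∧ (∃ δ : P ≃ P, IsDuality δ) ∧
    ¬ ∃ δ : P ≃ P, IsDuality δ ∧ ∀ F : P, δ (δ F) = F := by
  refine ⟨Elt, inferInstance, Pool.Agent.H315_Pol.rk, finite_elt, isPolyhedron, isEquivelar,
    ⟨dlE, dl_dual⟩, ?_⟩
  rintro ⟨δ, h1, h2⟩
  exact no_pol δ h1 h2

end Pool.Agent.Results.MP_1940b6_co.EquivelarNoPolarity
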